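import Mathlib

set_option autoImplicit false

namespace Pool.Agent.Helper65

/-- one row: two indices are comparable with the largest term -/
theorem trop_row {k : ℕ} (w a : Fin (k + 1) → ℝ) (T : Fin (k + 1) → ℝ) (hw : ∀ j, 0 < w j)
    (hT : ∀ j, |T j - w j| ≤ w j / 2) (ha : a ≠ 0) (h : ∑ j, a j * T j = 0) :
    ∃ j₁ j₂ : Fin (k + 1), j₁ < j₂ ∧ (∀ j, |a j| * w j ≤ (3 * (k + 1)) * (|a j₁| * w j₁)) ∧
      ∀ j, |a j| * w j ≤ (3 * (k + 1)) * (|a j₂| * w j₂) := by
  obtain ⟨m, -, hm⟩ := Finset.exists_max_image Finset.univ (fun j => |a j| * w j)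
    ⟨0, Finset.mem_univ _⟩
  have hm' : ∀ j, |a j| * w j ≤ |a m| * w m := fun j => hm j (Finset.mem_univ _)
  have hpos : 0 < |a m| * w m := by
    obtain ⟨j, hj⟩ := Function.ne_iff.1 ha
    have h1 : 0 < |a j| * w j := mul_pos (abs_pos.2 hj) (hw j)
    exact h1.trans_le (hm' j)
  have hk0 : (0 : ℝ) ≤ k := Nat.cast_nonneg k
  -- a second comparable index
  have hex : ∃ m' : Fin (k + 1), m' ≠ m ∧ |a m| * w m ≤ (3 * (k + 1)) * (|a m'| * w m') := by
    by_contra hcon
    push Not at hcon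
    have h1 : a m * T m = - ∑ j ∈ Finset.univ.erase m, a j * T j := by
      rw [← Finset.add_sum_erase _ _ (Finset.mem_univ m)] at h
      linarith
    have hTl : w m / 2 ≤ |T m| := by
      have := (abs_le.1 (hT m)).1
      exact le_trans (by linarith) (le_abs_self _)
    have h2 : |a m| * w m / 2 ≤ |a m * T m| := by
      rw [abs_mul]
      have := mul_le_mul_of_nonneg_left hTl (abs_nonneg (a m))
      linarith
    have h3 : |a m * T m| ≤ ∑ j ∈ Finset.univ.erase m, |a m| * w m / (2 * (k + 1)) := by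
      rw [h1, abs_neg]
      refine (Finset.abs_sum_le_sum_abs _ _).trans (Finset.sum_le_sum fun j hj => ?_)
      have hj' := hcon j (Finset.ne_of_mem_erase hj)
      rw [abs_mul]
      have hTu : |T j| ≤ 3 / 2 * w j := by
        have h4 := abs_le.1 (hT j)
        rw [abs_le]
        constructor <;> linarith [hw j]
      have h5 := mul_le_mul_of_nonneg_left hTu (abs_nonneg (a j))
      rw [le_div_iff₀ (by positivity)]
      nlinarith
    rw [Finset.sum_const, Finset.card_erase_of_mem (Finset.mem_univ m), Finset.card_univ,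
      Fintype.card_fin, nsmul_eq_mul] at h3
    have h6 : ((k + 1 - 1 : ℕ) : ℝ) = k := by simp
    rw [h6] at h3
    have h7 : (k : ℝ) * (|a m| * w m / (2 * (k + 1))) < |a m| * w m / 2 := by
      rw [mul_div_assoc', div_lt_div_iff₀ (by positivity) (by norm_num)]
      nlinarith
    linarith
  obtain ⟨m', hne, hm''⟩ := hex
  have hA : ∀ j, |a j| * w j ≤ (3 * (k + 1)) * (|a m| * w m) := fun j => by
    have := hm' j
    nlinarith
  have hB : ∀ j, |a j| * w j ≤ (3 * (k + 1)) * (|a m'| * w m') := fun j => (hm' j).trans hm''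
  rcases lt_or_gt_of_ne hne with h8 | h8
  · exact ⟨m', m, h8, hB, hA⟩
  · exact ⟨m, m', h8, hA, hB⟩

/-- **Tropical pigeonhole.** `k + 1` equations `∑_j a_j v_j ^ (e i) (1 + small) = 0` with widely
spaced exponents have only the solution `0`. -/
theorem trop {k : ℕ} (v : Fin (k + 1) → ℝ) (hv : ∀ j, 0 < v j) (e : ℕ → ℕ)
    (he : ∀ i < k, e i ≤ e (i + 1))
    (hgap : ∀ i < k, ∀ j j' : Fin (k + 1), j < j' →
      (3 * ((k : ℝ) + 1)) ^ 2 * v j ^ (e (i + 1) - e i) < v j' ^ (e (i + 1) - e i))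
    (T : ℕ → Fin (k + 1) → ℝ) (hT : ∀ i ≤ k, ∀ j, |T i j - v j ^ e i| ≤ v j ^ e i / 2)
    (a : Fin (k + 1) → ℝ) (h : ∀ i ≤ k, ∑ j, a j * T i j = 0) : a = 0 := by
  by_contra ha
  have hw : ∀ i, ∀ j, 0 < v j ^ e i := fun i j => pow_pos (hv j) _
  have hk0 : (0 : ℝ) ≤ k := Nat.cast_nonneg k
  have key : ∀ i : ℕ, i ≤ k → ∃ b : Fin (k + 1), i + 1 ≤ b.val ∧
      ∀ j, |a j| * v j ^ e i ≤ (3 * (k + 1)) * (|a b| * v b ^ e i) := by
    intro i
    induction i with
    | zero =>
      intro h0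
      obtain ⟨j₁, j₂, h12, -, h2⟩ := trop_row (fun j => v j ^ e 0) a (T 0) (hw 0) (hT 0 h0) ha
        (h 0 h0)
      refine ⟨j₂, ?_, h2⟩
      have : j₁.val < j₂.val := h12
      omega
    | succ i ih =>
      intro hi
      obtain ⟨b, hb, hbj⟩ := ih (by omega)
      obtain ⟨j₁, j₂, h12, h1, h2⟩ := trop_row (fun j => v j ^ e (i + 1)) a (T (i + 1))
        (hw (i + 1)) (hT (i + 1) hi) ha (h (i + 1) hi)
      refine ⟨j₂, ?_, h2⟩
      have hlt : b ≤ j₁ := by
        by_contra hlt
        push Not at hlt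
        have hb0 : 0 < |a b| * v b ^ e i := by
          obtain ⟨j, hj⟩ := Function.ne_iff.1 ha
          have h3 : 0 < |a j| * v j ^ e i := mul_pos (abs_pos.2 hj) (hw i j)
          have h4 := hbj j
          by_contra h5
          push Not at h5
          nlinarith
        have h5 := h1 b
        beta_reduce at h5
        have h6 := hbj j₁
        have hs : ∀ j, v j ^ e (i + 1) = v j ^ e i * v j ^ (e (i + 1) - e i) := by
          intro j
          rw [← pow_add, Nat.add_sub_cancel' (he i (by omega))]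
        rw [hs b, hs j₁] at h5
        have h7 := hgap i (by omega) j₁ b hlt
        have hp1 : 0 < v j₁ ^ (e (i + 1) - e i) := pow_pos (hv j₁) _
        have hp2 : 0 < v b ^ (e (i + 1) - e i) := pow_pos (hv b) _
        have h8 : |a j₁| * (v j₁ ^ e i * v j₁ ^ (e (i + 1) - e i)) ≤
            (3 * (k + 1)) * (|a b| * v b ^ e i) * v j₁ ^ (e (i + 1) - e i) := by
          calc |a j₁| * (v j₁ ^ e i * v j₁ ^ (e (i + 1) - e i))
              = (|a j₁| * v j₁ ^ e i) * v j₁ ^ (e (i + 1) - e i) := by ring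
            _ ≤ _ := mul_le_mul_of_nonneg_right h6 hp1.le
        have h9 : |a b| * v b ^ e i * v b ^ (e (i + 1) - e i) ≤
            |a b| * v b ^ e i * ((3 * ((k : ℝ) + 1)) ^ 2 * v j₁ ^ (e (i + 1) - e i)) := by
          have h10 : (3 * ((k : ℝ) + 1)) * (|a j₁| * (v j₁ ^ e i * v j₁ ^ (e (i + 1) - e i))) ≤
              (3 * ((k : ℝ) + 1)) *
                ((3 * (k + 1)) * (|a b| * v b ^ e i) * v j₁ ^ (e (i + 1) - e i)) :=
            mul_le_mul_of_nonneg_left h8 (by positivity)
          calc |a b| * v b ^ e i * v b ^ (e (i + 1) - e i)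
              = |a b| * (v b ^ e i * v b ^ (e (i + 1) - e i)) := by ring
            _ ≤ (3 * (k + 1)) * (|a j₁| * (v j₁ ^ e i * v j₁ ^ (e (i + 1) - e i))) := h5
            _ ≤ _ := h10
            _ = _ := by ring
        have h11 := le_of_mul_le_mul_left h9 hb0
        linarith
      have : j₁.val < j₂.val := h12
      have : b.val ≤ j₁.val := hlt
      omega
  obtain ⟨b, hb, -⟩ := key k le_rfl
  have := b.isLt
  omega

end Pool.Agent.Helper65
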